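import Mathlib
import Pool.Agent.N70.ES.MlFin

/-!
# Malle's conjecture for the wreath products `C₂ ≀ (A ≀ A_n)`, `A` any finite group

`H` is a finite group acting on itself by multiplication, and `G = C₂ ≀ H` acts on `H × {0, 1}`.
First part: `A` is ANY finite group (no realization of `A` is assumed), and `H = A ≀ A_n`. For almost
all natural numbers `n` (natural density 1), Malle's conjecture (weak form and asymptotic formula)
holds for `G` over every number field `K`.

Second part (the first part is the case `W = 1`): let `α : B → W` be any surjective homomorphism of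
finite groups. `TwPow α χ n` is the group of all `(x, ρ)` with `x` in the wreath product `B ≀ S_n`,
`ρ` in `W`, such that `α` maps all coordinates of `x` to `ρ` and the sign of the permutation of `x`
is `χ ρ`. For almost all `n` and all characters `χ : W → {1, -1}` such that the projection of
`H = TwPow α χ n` to `W` splits, Malle's conjecture holds for `G` over all number fields `K` over
which `W` is a Galois group.

The definitions `AltWreath`, `TwPow`, `Realizable`, `AlmostAllNumbers`, `TwSplit` are in the files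
`Voc.lean`, `VocC.lean`, `VocQ.lean` of `Pool/Agent/N70/EP`, `Pool/Agent/N70/EO/VocE.lean` and
`Pool/Agent/N70/ES/VocW.lean`.
-/

set_option autoImplicit false

open Filter

namespace Pool.Agent.Results.MP_af4c59_nt.OrderTwoByAlternating

/-- `G ≤ S_d` is, up to a bijection `f` of `{1, ..., d}` with `H × {0, 1}`, the wreath product
`C₂ ≀ H`: it consists of all permutations `π` for which there is `h ∈ H` such that `π` maps the block
`{x} × {0, 1}` to the block `{h x} × {0, 1}`, for all `x ∈ H`. -/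
def IsC2Wreath (H : Type) [Group H] {d : ℕ} (G : Subgroup (Equiv.Perm (Fin d))) : Prop :=
  ∃ f : Fin d ≃ H × Bool, ∀ π : Equiv.Perm (Fin d), π ∈ G ↔ ∃ h : H, ∀ i, (f (π i)).1 = h * (f i).1

/-- The index of a permutation: `d` minus the number of its cycles, fixed points included. -/
def ind {d : ℕ} (g : Equiv.Perm (Fin d)) : ℕ := g.cycleType.sum - Multiset.card g.cycleType

/-- `a(G) = 1 / min ind(g)`, the minimum over the `g ≠ 1` in `G`. -/
noncomputable def a {d : ℕ} (G : Subgroup (Equiv.Perm (Fin d))) : ℝ :=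
  1 / (sInf {j : ℕ | ∃ g ∈ G, g ≠ 1 ∧ j = ind g} : ℕ)

/-- `N_{d,K}(X; G)`: the number of fields `L` between `K` and its algebraic closure, of degree `d`
over `K`, whose Galois group, acting on the embeddings, is `G` (up to numbering), and whose relative
discriminant has norm at most `X` (that is, `|d_L| ≤ X |d_K| ^ d`). -/
noncomputable def N (K : Type) [Field K] [NumberField K] (d : ℕ)
    (G : Subgroup (Equiv.Perm (Fin d))) (X : ℝ) : ℕ :=
  Set.ncard {L : IntermediateField K (AlgebraicClosure K) |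
    Module.finrank K L = d ∧
    (∃ e : (L →ₐ[K] AlgebraicClosure K) ≃ Fin d, ∀ π : Equiv.Perm (Fin d),
      π ∈ G ↔ ∃ σ : AlgebraicClosure K ≃ₐ[K] AlgebraicClosure K,
        ∀ φ : L →ₐ[K] AlgebraicClosure K, e (σ.toAlgHom.comp φ) = π (e φ)) ∧
    ∃ h : NumberField L,
      ((|@NumberField.discr L _ h| : ℤ) : ℝ) ≤ X * ((|NumberField.discr K| : ℤ) : ℝ) ^ d}

/-- Malle's conjecture for `(K, G)`: the asymptotic formula `N_{d,K}(X; G) ~ c X ^ a(G)` (so
`b(K, G) = 1`), and the inequalities of the weak form. -/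
def Malle (K : Type) [Field K] [NumberField K] (d : ℕ) (G : Subgroup (Equiv.Perm (Fin d))) :
    Prop :=
  (∃ c : ℝ, 0 < c ∧ Tendsto (fun X : ℝ => (N K d G X : ℝ) / X ^ a G) atTop (nhds c)) ∧
  (∃ c₁ : ℝ, 0 < c₁ ∧ ∃ X₀ : ℝ, ∀ X : ℝ, X₀ ≤ X → c₁ * X ^ a G ≤ N K d G X) ∧
  (∀ ε : ℝ, 0 < ε → ∃ c₂ : ℝ, 0 < c₂ ∧ ∃ X₀ : ℝ, ∀ X : ℝ, X₀ ≤ X →
    (N K d G X : ℝ) < c₂ * X ^ (a G + ε))

/-- Malle's conjecture over `K` for all subgroups of symmetric groups of the form `C₂ ≀ H`, `H` in
its regular action. -/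
def MalleOrderTwo (K : Type) [Field K] [NumberField K] (H : Type) [Group H] : Prop :=
  ∀ (d : ℕ) (G : Subgroup (Equiv.Perm (Fin d))), IsC2Wreath H G → Malle K d G

theorem a_eq {H : Type} [Group H] [Finite H] {d : ℕ} {G : Subgroup (Equiv.Perm (Fin d))}
    (hG : IsC2Wreath H G) : a G = 1 := by
  have h := Pool.Agent.TH444.ML.least_ind (H := H) hG
  have h2 : sInf {j : ℕ | ∃ g ∈ G, g ≠ 1 ∧ j = ind g} = 1 := h.csInf_eq
  unfold a
  rw [h2]
  simp

theorem of_data (K : Type) [Field K] [NumberField K] (H : Type) [Group H] [Finite H]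
    (h2 : 2 ≤ Nat.card H) (U : Subgroup H) (hU : U.normalCore = ⊥)
    (hc : 8 * U.index * (U.index + 1) ≤ Nat.card H)
    (hne : (Pool.Agent.TH444.ML.Gal K (AlgebraicClosure K) H).Nonempty) :
    MalleOrderTwo K H := by
  intro d G hG
  obtain ⟨-, c, hc0, hlim⟩ :=
    Pool.Agent.TH444.ML.asymp Pool.Agent.TH444.ML.rest K H h2 U hU hc hne G hG
  have ha := a_eq hG
  unfold Malle
  rw [ha]
  have hlim' : Tendsto (fun X : ℝ => (N K d G X : ℝ) / X) atTop (nhds c) := hlim
  refine ⟨⟨c, hc0, by simpa using hlim'⟩, ⟨c / 2, by positivity, ?_⟩, ?_⟩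
  · have h := (hlim'.eventually (lt_mem_nhds (by linarith : c / 2 < c))).and
      (eventually_gt_atTop (0 : ℝ))
    obtain ⟨X₀, hX₀⟩ := eventually_atTop.1 h
    refine ⟨X₀, fun X hX => ?_⟩
    obtain ⟨h3, h4⟩ := hX₀ X hX
    rw [lt_div_iff₀ h4] at h3
    rw [Real.rpow_one]
    exact h3.le
  · intro ε hε
    refine ⟨2 * c, by positivity, ?_⟩
    have h := (hlim'.eventually (gt_mem_nhds (by linarith : c < 2 * c))).and
      (eventually_ge_atTop (1 : ℝ))
    obtain ⟨X₀, hX₀⟩ := eventually_atTop.1 h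
    refine ⟨X₀, fun X hX => ?_⟩
    obtain ⟨h3, h4⟩ := hX₀ X hX
    have h5 : (0 : ℝ) < X := by linarith
    rw [div_lt_iff₀ h5] at h3
    refine h3.trans_le ?_
    apply mul_le_mul_of_nonneg_left _ (by positivity)
    calc X = X ^ (1 : ℝ) := (Real.rpow_one X).symm
      _ ≤ X ^ (1 + ε) := Real.rpow_le_rpow_of_exponent_le h4 (by linarith)

end Pool.Agent.Results.MP_af4c59_nt.OrderTwoByAlternating

open Pool.Agent.N70.EP.Voc in
open Pool.Agent.N70.EO.Voc (AlmostAllNumbers) in
open Pool.Agent.N70.ES.Voc (TwSplit) in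
open Pool.Agent.Results.MP_af4c59_nt.OrderTwoByAlternating in
/-- Malle's conjecture for `C₂ ≀ (A ≀ A_n)` over every number field, `A` any finite group, almost all
`n`, and for `C₂ ≀ TwPow α χ n`. -/
theorem Pool.Agent.Results.MP_af4c59_nt.OrderTwoByAlternating.result :
    (∀ (A : Type) [Group A] [Finite A], AlmostAllNumbers (fun n =>
      ∀ (K : Type) [Field K] [NumberField K], MalleOrderTwo K (AltWreath A n))) ∧
    ∀ (W B : Type) [Group W] [Finite W] [Group B] [Finite B] (α : B →* W),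
      Function.Surjective α → AlmostAllNumbers (fun n => ∀ χ : W →* ℤˣ, TwSplit α χ n →
        ∀ (K : Type) [Field K] [NumberField K], Realizable K W →
          MalleOrderTwo K (TwPow α χ n)) := by
  refine ⟨fun A _ _ => ?_, fun W B _ _ _ _ α hα => ?_⟩
  · refine Pool.Agent.N70.EO.aan_mono (Pool.Agent.N70.ES.alt_malle A) fun n hn K _ _ => ?_
    obtain ⟨⟨hf, hc, ⟨U, hU, hi⟩⟩, hr⟩ := hn
    exact @of_data K _ _ (AltWreath A n) _ hf hc U hU hi (hr K)
  · refine Pool.Agent.N70.EO.aan_mono (Pool.Agent.N70.ES.tw_malle Pool.Agent.N70.ES.htd α hα)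
      fun n hn χ hs K _ _ hK => ?_
    obtain ⟨⟨hf, hc, ⟨U, hU, hi⟩⟩, hr⟩ := hn χ hs
    exact @of_data K _ _ (TwPow α χ n) _ hf hc U hU hi (hr K hK)
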