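import Mathlib
import Pool.Agent.N70.PP.MlT

/-!
# Malle's conjecture for the wreath products `C₂ ≀ S_n(A)`, `A : B → W` any surjection

`H` is a finite group acting on itself by multiplication, and `G = C₂ ≀ H` acts on `H × {0, 1}`.
Let `A : B → W` be ANY surjective homomorphism of finite groups (split or not, any kernel), and let
`H = S_n(A) = SymEP A n` be the group of all `(x, w)` with `x` in the wreath product `B ≀ S_n`, `w`
in `W`, such that `A` maps all coordinates of `x` to `w`; it is an extension of `W` by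
`(ker A) ≀ S_n`.

1. For all `n ≥ ((3 |ker A| + 2)!)^3`, `n ≥ |B|^2 + 10`: Malle's conjecture holds for `G` over all
   number fields over which some subgroup `D` of `B` with `A(D) = W` is a Galois group.
2. For all multiples `n ≥ ((3 |B| + 2)!)^3` of `|W|` it holds over all number fields over which `W`
   is a Galois group.

The definition `Realizable` is in `Pool/Agent/N70/EP/VocQ.lean`, `SymEP` in
`Pool/Agent/H391R2/T4/Sym.lean`.
-/

set_option autoImplicit false

open Filter
open Pool.Agent.N70.EP.Voc (Realizable)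
open Pool.Agent.H391R2.T4 (SymEP)

namespace Pool.Agent.Results.MP_af4c59_nt.OrderTwoByFibrePowers

/-- `G ≤ S_d` is, up to a bijection `f` of `{1, ..., d}` with `H × {0, 1}`, the wreath product
`C₂ ≀ H`: it consists of all permutations `π` for which there is `h ∈ H` such that `π` maps the block
`{x} × {0, 1}` to the block `{h x} × {0, 1}`, for all `x ∈ H`. -/
def IsC2Wreath (H : Type) [Group H] {d : ℕ} (G : Subgroup (Equiv.Perm (Fin d))) : Prop :=
  ∃ f : Fin d ≃ H × Bool, ∀ π : Equiv.Perm (Fin d), π ∈ G ↔ ∃ h : H, ∀ i, (f (π i)).1 = h * (f i).1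

/-- The index of a permutation: `d` minus the number of its cycles, fixed points included. -/
def ind {d : ℕ} (g : Equiv.Perm (Fin d)) : ℕ := g.cycleType.sum - Multiset.card g.cycleType

/-- `a(G) = 1 / min ind(g)`, the minimum over the `g ≠ 1` in `G`. -/
noncomputable def a {d : ℕ} (G : Subgroup (Equiv.Perm (Fin d))) : ℝ :=
  1 / (sInf {j : ℕ | ∃ g ∈ G, g ≠ 1 ∧ j = ind g} : ℕ)

/-- `N_{d,K}(X; G)`: the number of fields `L` between `K` and its algebraic closure, of degree `d`
over `K`, whose Galois group, acting on the embeddings, is `G` (up to numbering), and whose relative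
discriminant has norm at most `X` (that is, `|d_L| ≤ X |d_K| ^ d`). -/
noncomputable def N (K : Type) [Field K] [NumberField K] (d : ℕ)
    (G : Subgroup (Equiv.Perm (Fin d))) (X : ℝ) : ℕ :=
  Set.ncard {L : IntermediateField K (AlgebraicClosure K) |
    Module.finrank K L = d ∧
    (∃ e : (L →ₐ[K] AlgebraicClosure K) ≃ Fin d, ∀ π : Equiv.Perm (Fin d),
      π ∈ G ↔ ∃ σ : AlgebraicClosure K ≃ₐ[K] AlgebraicClosure K,
        ∀ φ : L →ₐ[K] AlgebraicClosure K, e (σ.toAlgHom.comp φ) = π (e φ)) ∧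
    ∃ h : NumberField L,
      ((|@NumberField.discr L _ h| : ℤ) : ℝ) ≤ X * ((|NumberField.discr K| : ℤ) : ℝ) ^ d}

/-- Malle's conjecture for `(K, G)`: the asymptotic formula `N_{d,K}(X; G) ~ c X ^ a(G)` (so
`b(K, G) = 1`), and the inequalities of the weak form. -/
def Malle (K : Type) [Field K] [NumberField K] (d : ℕ) (G : Subgroup (Equiv.Perm (Fin d))) :
    Prop :=
  (∃ c : ℝ, 0 < c ∧ Tendsto (fun X : ℝ => (N K d G X : ℝ) / X ^ a G) atTop (nhds c)) ∧
  (∃ c₁ : ℝ, 0 < c₁ ∧ ∃ X₀ : ℝ, ∀ X : ℝ, X₀ ≤ X → c₁ * X ^ a G ≤ N K d G X) ∧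
  (∀ ε : ℝ, 0 < ε → ∃ c₂ : ℝ, 0 < c₂ ∧ ∃ X₀ : ℝ, ∀ X : ℝ, X₀ ≤ X →
    (N K d G X : ℝ) < c₂ * X ^ (a G + ε))

/-- Malle's conjecture over `K` for all subgroups of symmetric groups of the form `C₂ ≀ H`, `H` in
its regular action. -/
def MalleOrderTwo (K : Type) [Field K] [NumberField K] (H : Type) [Group H] : Prop :=
  ∀ (d : ℕ) (G : Subgroup (Equiv.Perm (Fin d))), IsC2Wreath H G → Malle K d G

theorem a_eq {H : Type} [Group H] [Finite H] {d : ℕ} {G : Subgroup (Equiv.Perm (Fin d))}
    (hG : IsC2Wreath H G) : a G = 1 := by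
  have h := Pool.Agent.TH444.ML.least_ind (H := H) hG
  have h2 : sInf {j : ℕ | ∃ g ∈ G, g ≠ 1 ∧ j = ind g} = 1 := h.csInf_eq
  unfold a
  rw [h2]
  simp

theorem of_data (K : Type) [Field K] [NumberField K] (H : Type) [Group H] [Finite H]
    (h2 : 2 ≤ Nat.card H) (U : Subgroup H) (hU : U.normalCore = ⊥)
    (hc : 8 * U.index * (U.index + 1) ≤ Nat.card H)
    (hne : (Pool.Agent.TH444.ML.Gal K (AlgebraicClosure K) H).Nonempty) :
    MalleOrderTwo K H := by
  intro d G hG
  obtain ⟨-, c, hc0, hlim⟩ :=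
    Pool.Agent.TH444.ML.asymp Pool.Agent.TH444.ML.rest K H h2 U hU hc hne G hG
  have ha := a_eq hG
  unfold Malle
  rw [ha]
  have hlim' : Tendsto (fun X : ℝ => (N K d G X : ℝ) / X) atTop (nhds c) := hlim
  refine ⟨⟨c, hc0, by simpa using hlim'⟩, ⟨c / 2, by positivity, ?_⟩, ?_⟩
  · have h := (hlim'.eventually (lt_mem_nhds (by linarith : c / 2 < c))).and
      (eventually_gt_atTop (0 : ℝ))
    obtain ⟨X₀, hX₀⟩ := eventually_atTop.1 h
    refine ⟨X₀, fun X hX => ?_⟩
    obtain ⟨h3, h4⟩ := hX₀ X hX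
    rw [lt_div_iff₀ h4] at h3
    rw [Real.rpow_one]
    exact h3.le
  · intro ε hε
    refine ⟨2 * c, by positivity, ?_⟩
    have h := (hlim'.eventually (gt_mem_nhds (by linarith : c < 2 * c))).and
      (eventually_ge_atTop (1 : ℝ))
    obtain ⟨X₀, hX₀⟩ := eventually_atTop.1 h
    refine ⟨X₀, fun X hX => ?_⟩
    obtain ⟨h3, h4⟩ := hX₀ X hX
    have h5 : (0 : ℝ) < X := by linarith
    rw [div_lt_iff₀ h5] at h3
    refine h3.trans_le ?_
    apply mul_le_mul_of_nonneg_left _ (by positivity)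
    calc X = X ^ (1 : ℝ) := (Real.rpow_one X).symm
      _ ≤ X ^ (1 + ε) := Real.rpow_le_rpow_of_exponent_le h4 (by linarith)

/-- The theorem for the group `H = S_n(A)` and the group `D` (a subgroup of `B`, or `W`): Malle's
conjecture holds for `C₂ ≀ H` over all number fields over which `D` is a Galois group. -/
def Conclusion (D H : Type) [Group D] [Group H] : Prop :=
  ∀ (K : Type) [Field K] [NumberField K], Realizable K D → MalleOrderTwo K H

theorem conclusion_of {D H : Type} [Group D] [Group H] (h : Pool.Agent.N70.ES.MlData H ∧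
    ∀ (K : Type) [Field K] [NumberField K], Realizable K D →
      (Pool.Agent.TH444.ML.Gal K (AlgebraicClosure K) H).Nonempty) : Conclusion D H := by
  obtain ⟨⟨hf, hc, ⟨U, hU, hi⟩⟩, hr⟩ := h
  exact fun K _ _ hK => @of_data K _ _ H _ hf hc U hU hi (hr K hK)

/-- The first theorem for the number `n`. -/
def First {B W : Type} [Group B] [Group W] (A : B →* W) (n : ℕ) : Prop :=
  ((3 * Nat.card A.ker + 2).factorial) ^ 3 ≤ n → Nat.card B ^ 2 + 10 ≤ n →
    ∀ D : Subgroup B, (∀ w : W, ∃ d ∈ D, A d = w) → Conclusion D (SymEP A n)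

/-- The second theorem for the number `n`. -/
def Second {B W : Type} [Group B] [Group W] (A : B →* W) (n : ℕ) : Prop :=
  ((3 * Nat.card B + 2).factorial) ^ 3 ≤ n → Nat.card W ∣ n → Conclusion W (SymEP A n)

theorem result (W B : Type) [Group W] [Finite W] [Group B] [Finite B] (A : B →* W)
    (hA : Function.Surjective A) (n : ℕ) : First A n ∧ Second A n :=
  ⟨fun hn hn2 D hD => conclusion_of (Pool.Agent.N70.PP.malle_D A n hn hn2 D hD),
    fun hn hd => conclusion_of (Pool.Agent.N70.PP.malle_W A hA n hn hd)⟩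

end Pool.Agent.Results.MP_af4c59_nt.OrderTwoByFibrePowers
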