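import Pool.Agent.N783.CF.Final
import Pool.Agent.N783.CF.Mono

/-!
# Many extensions with Galois group `S_n`, `n` odd, of every number field

Let `K` be any number field and `n ≥ 3` an odd integer. The number `N_{n,K}(X; S_n)` of the extensions `L`
of degree `n` of `K` inside an algebraic closure of `K` with absolute discriminant at most `X`, for which
the Galois group acts on the `n` embeddings of `L` as the full symmetric group `S_n`, is at least
`c X ^ (1 / 2 + 1 / n)` for large `X`, with `c > 0` depending on `K` and `n`. This is already true for
those `L` whose ring of integers is generated by one element over the ring of integers of `K`.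

(The absolute value of the discriminant of `L` is `|disc K| ^ n` times the norm of the relative
discriminant, so the same holds for the count by the norm of the relative discriminant.)

Known before: over `K = ℚ` this is a theorem of Bhargava, Shankar and Wang (squarefree values of polynomial
discriminants I; exponent `1 / 2 + 1 / (n - 1)` without monogenicity in part II); for `n = 3, 5` (and `n = 2, 4`) Malle's conjecture for `S_n` is known over every `K`
(Datskovsky-Wright, Bhargava-Shankar-Wang). Over a number field `K ≠ ℚ` the best lower bound for general
`n` seems to be `X ^ (1 / 2 + 1 / n ^ 2)` of Ellenberg and Venkatesh. The conjecture is `X`.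

The proof. By project PF (2-Selmer groups of hyperelliptic Jacobians over number fields) a positive
proportion of all monic polynomials `f` of degree `n` over `𝓞 K` without term of degree `n - 1`, ordered by
the height, is irreducible with a discriminant which is not divisible by the square of a prime ideal: a
polynomial `f` of the family considered there with `𝔭 ^ 2 ∣ disc f`, `𝔭` large, gives an `𝓞 K`-lattice in
`K[x]/(f)` which is unimodular for the form `tr (x y / f'(θ))` and distinguished at the primes of a large
set `S`, and these are rare by reduction theory over `𝓞 K`. For all but few of these `f` the discriminant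
is large at all infinite places. Then `𝓞 L = 𝓞 K [θ]`, and `L` determines `θ` up to boundedly many
multiples: the elements of `𝓞 L` of trace zero which are as small as `θ` are multiples of `θ`. This gives
`c X ^ (1 / 2 + 1 / n)` fields `L = K(θ)`. The discriminant of `f` is not a unit, and `f` is `x h(x)` with
`h` irreducible modulo some prime `𝔮`. The last property shows that `f(x) / (x - θ)` is irreducible over
`L`, so the Galois group is doubly transitive. A prime `𝔭` which divides the discriminant exactly once is
ramified in the normal closure, because the discriminant is a square up to the sign there, and modulo the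
primes over `𝔭` only two of the roots are equal; hence the inertia group contains a transposition.

Project CF: helper783 with parts by helpers 27, 78, 93, 130, 169, 195, 227, 300, 327, 492, 513,
526, 570, 602, 654, 692, 693, 793, 914; project PF: see
`MP_1d384c_nt.JacobiansNumberFields`; finiteness of the number of fields: library (W301).
-/

set_option autoImplicit false
set_option linter.all false

namespace Pool.Agent.Results.MP_af4c59_nt.SymmetricGroupOddDegree

open NumberField

/-- The extensions of degree `n` of `K` inside the algebraic closure of `K` whose absolute discriminant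
has absolute value at most `X` and for which the Galois group of `K` acts on the set of embeddings in the
algebraic closure as the full symmetric group. -/
def SymmetricFields (K : Type) [Field K] [NumberField K] (n : ℕ) (X : ℝ) :
    Set (IntermediateField K (AlgebraicClosure K)) :=
  {L | Module.finrank K L = n ∧
    (∃ h : NumberField L, ((|@NumberField.discr L _ h| : ℤ) : ℝ) ≤ X) ∧
    ∀ τ : Equiv.Perm (L →ₐ[K] AlgebraicClosure K),
      ∃ σ : AlgebraicClosure K ≃ₐ[K] AlgebraicClosure K,
        ∀ φ : L →ₐ[K] AlgebraicClosure K, τ φ = σ.toAlgHom.comp φ}

/-- Those among them whose ring of integers is generated by one element over the ring of integers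
of `K`. -/
def MonogenicSymmetricFields (K : Type) [Field K] [NumberField K] (n : ℕ) (X : ℝ) :
    Set (IntermediateField K (AlgebraicClosure K)) :=
  {L | L ∈ SymmetricFields K n X ∧ ∃ t : 𝓞 L, Algebra.adjoin (𝓞 K) {t} = ⊤}

/-- For every number field `K` and every odd `n ≥ 3` the number of the extensions of degree `n` of `K` with
Galois group `S_n` and absolute discriminant at most `X` is finite and at least
`c X ^ (1 / 2 + 1 / n)`, and so is the number of those whose ring of integers is generated by one element
over the ring of integers of `K`. -/
theorem result : ∀ (K : Type) [Field K] [NumberField K] (n : ℕ), 3 ≤ n → Odd n →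
    ∃ c : ℝ, 0 < c ∧ ∃ X₀ : ℝ, ∀ X : ℝ, X₀ ≤ X → (SymmetricFields K n X).Finite ∧
      c * X ^ ((1 : ℝ) / 2 + 1 / (n : ℝ)) ≤ ((MonogenicSymmetricFields K n X).ncard : ℝ) ∧
      (MonogenicSymmetricFields K n X).ncard ≤ (SymmetricFields K n X).ncard := by
  intro K _ _ n hn3 hodd
  obtain ⟨g, rfl⟩ := hodd
  obtain ⟨c, hc, X₀, h⟩ := Pool.Agent.N783.CF.cnt g K (by omega)
  refine ⟨c, hc, X₀, fun X hX => ?_⟩
  obtain ⟨hfin, hle⟩ := h X hX
  have hfin' : (SymmetricFields K (2 * g + 1) X).Finite :=
    hfin.subset fun L hL => ⟨hL.1, hL.2.1⟩
  have hsub1 : MonogenicSymmetricFields K (2 * g + 1) X ⊆ SymmetricFields K (2 * g + 1) X :=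
    fun L hL => hL.1
  have hsub : Pool.Agent.N783.CF.Flds K g X ⊆ MonogenicSymmetricFields K (2 * g + 1) X := by
    rintro L ⟨hL, hN, f, θ, hG, hi, hs, ht, hu⟩
    exact ⟨⟨hL.1, hL.2, Pool.Agent.N783.CF.full g K L f θ (by omega) hG hi hs ht hu⟩,
      Pool.Agent.N783.CF.mono Pool.Agent.N783.PF.int hG hs⟩
  refine ⟨hfin', hle.trans ?_, Set.ncard_le_ncard hsub1 hfin'⟩
  exact_mod_cast Set.ncard_le_ncard hsub (hfin'.subset hsub1)

end Pool.Agent.Results.MP_af4c59_nt.SymmetricGroupOddDegree
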